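import Pool.Agent.N896.MB.Cnt

set_option autoImplicit false

/-! # The distance to the superattracting parameters of period `n` -/

namespace Pool.Agent.N896.MB

open Complex Metric Set Filter Topology MeasureTheory Pool.Agent.H712R2 Pool.Agent.H713R2
open N62a1eb23 Polynomial Pool.Agent.R240 Pool.Agent.Y736.HG Pool.Agent.Y298.CA
open Pool.Agent.Y736.HD (Ang GS ev_lt ev_pos)

variable {d : ℕ} {χ : ℝ} {c₀ : ℂ}

theorem ev_lin (C : ℝ) {a : ℝ} (ha : 0 < a) :
    ∀ᶠ n : ℕ in atTop, C * (1 + n) ≤ Real.exp (a * n) := by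
  have h1 : ∀ᶠ n : ℕ in atTop, 4 * |C| / a ^ 2 ≤ (n : ℝ) :=
    tendsto_natCast_atTop_atTop.eventually_ge_atTop _
  filter_upwards [h1, eventually_ge_atTop 1] with n hn hn1
  rw [div_le_iff₀ (by positivity)] at hn
  have hn2 : (1 : ℝ) ≤ n := by exact_mod_cast hn1
  have h2 := Real.quadratic_le_exp_of_nonneg (x := a * n) (by positivity)
  have h3 : C * (1 + n) ≤ |C| * (2 * n) := by
    have h4 : C ≤ |C| := le_abs_self C
    have h5 : 0 ≤ |C| := abs_nonneg C
    nlinarith
  have h4 : |C| * (2 * n) ≤ (a * n) ^ 2 / 2 := by nlinarith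
  have h5 : 0 ≤ a * n := by positivity
  linarith

theorem ev_const (C : ℝ) {a : ℝ} (ha : 0 < a) :
    ∀ᶠ n : ℕ in atTop, C ≤ Real.exp (a * n) := by
  filter_upwards [ev_lin |C| ha] with n hn
  have h4 : C ≤ |C| := le_abs_self C
  have h5 : 0 ≤ |C| := abs_nonneg C
  have h6 : (0 : ℝ) ≤ n := by positivity
  nlinarith

/-- **Lower bound for exact periods.** -/
theorem low_ex (hd : 2 ≤ d) (h : Lyap d χ c₀) {δ : ℝ} (hδ : 0 < δ) :
    ∀ᶠ n : ℕ in atTop, ∀ r : ℝ, 0 < r → r ≤ 1 →
      (d : ℝ) ^ n * r ^ (Real.log d / χ) ≤ Real.exp (δ * n) * (1 + (Ex d n c₀ r).ncard) := by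
  have hχ := h.1
  have hd1 : (1 : ℝ) < d := by exact_mod_cast (by omega : 1 < d)
  have hd0 : (0 : ℝ) < d := by linarith
  obtain ⟨L, hL⟩ : ∃ L, L = Real.log d := ⟨_, rfl⟩
  have hL0 : 0 < L := by rw [hL]; exact Real.log_pos hd1
  obtain ⟨κ, hκ⟩ : ∃ κ, κ = Real.log d / χ := ⟨_, rfl⟩
  have hκ0 : 0 < κ := by rw [hκ, ← hL]; positivity
  have hκχ : κ * χ = L := by rw [hκ, ← hL]; field_simp
  obtain ⟨ε, hε⟩ : ∃ ε, ε = min (δ / 3) (L / 8) := ⟨_, rfl⟩
  have hε0 : 0 < ε := by rw [hε]; exact lt_min (by linarith) (by linarith)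
  have hε1 : 3 * ε ≤ δ := by
    have : ε ≤ δ / 3 := by rw [hε]; exact min_le_left _ _
    linarith
  have hε2 : 8 * ε ≤ L := by
    have : ε ≤ L / 8 := by rw [hε]; exact min_le_right _ _
    linarith
  obtain ⟨a, ha, HL⟩ := low hd h (η := ε / χ) (by positivity)
  obtain ⟨A, hA, HU⟩ := up hd h hε0
  simp only [← hκ] at HL HU ⊢
  filter_upwards [eventually_ge_atTop 1, ev_lin (2 / a * A) (show 0 < L / 4 by linarith),
    ev_lin (2 / a * (1 + A)) hε0] with n hn e1 e2 r hr0 hr1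
  have hn0 : (0 : ℝ) ≤ n := by positivity
  obtain ⟨X, hX⟩ : ∃ X, X = (d : ℝ) ^ n * r ^ κ := ⟨_, rfl⟩
  have hX0 : 0 < X := by rw [hX]; positivity
  obtain ⟨M, hM⟩ : ∃ M : ℝ, M = (Ex d n c₀ r).ncard := ⟨_, rfl⟩
  have hM0 : 0 ≤ M := by rw [hM]; positivity
  rw [← hX, ← hM]
  have hdn : (d : ℝ) ^ n = Real.exp (L * n) := by
    rw [hL, mul_comm, Real.exp_nat_mul, Real.exp_log hd0]
  rcases lt_or_ge r (Real.exp (-(χ * n))) with hr | hr
  · have h1 : r ^ κ ≤ Real.exp (-(χ * n)) ^ κ := Real.rpow_le_rpow hr0.le hr.le hκ0.le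
    rw [← Real.exp_mul] at h1
    have h2 : X ≤ 1 := by
      rw [hX, hdn]
      calc Real.exp (L * n) * r ^ κ ≤ Real.exp (L * n) * Real.exp (-(χ * n) * κ) := by gcongr
        _ = 1 := by
            rw [← Real.exp_add, ← hκχ]
            rw [show κ * χ * n + -(χ * n) * κ = 0 by ring, Real.exp_zero]
    have h3 : 1 ≤ Real.exp (δ * n) := Real.one_le_exp (by positivity)
    nlinarith
  · -- the number of all centres
    have h1 := HL n r hn hr0 hr1
    have h2 : Real.exp (-(ε * n)) ≤ r ^ (ε / χ) := by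
      have h3 : Real.exp (-(χ * n)) ^ (ε / χ) ≤ r ^ (ε / χ) :=
        Real.rpow_le_rpow (Real.exp_pos _).le hr (by positivity)
      rw [← Real.exp_mul] at h3
      have h4 : -(χ * n) * (ε / χ) = -(ε * n) := by field_simp
      rwa [h4] at h3
    have h3 : a * X * Real.exp (-(ε * n)) ≤ (Cen d n c₀ r).ncard + 1 := by
      refine le_trans ?_ h1
      rw [Real.rpow_add hr0, hX]
      calc a * ((d : ℝ) ^ n * r ^ κ) * Real.exp (-(ε * n)) ≤
            a * ((d : ℝ) ^ n * r ^ κ) * r ^ (ε / χ) := by gcongr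
        _ = _ := by ring
    have h4 : a * X ≤ Real.exp (ε * n) * ((Cen d n c₀ r).ncard + 1) := by
      have h5 : Real.exp (ε * n) * Real.exp (-(ε * n)) = 1 := by
        rw [← Real.exp_add]; simp
      calc a * X = Real.exp (ε * n) * (a * X * Real.exp (-(ε * n))) := by
            rw [show Real.exp (ε * n) * (a * X * Real.exp (-(ε * n))) =
              a * X * (Real.exp (ε * n) * Real.exp (-(ε * n))) by ring, h5, mul_one]
        _ ≤ _ := by gcongr
    -- the centres of smaller period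
    obtain ⟨Y, hY⟩ : ∃ Y, Y = (d : ℝ) ^ (n / 2) * r ^ κ := ⟨_, rfl⟩
    have hY0 : 0 < Y := by rw [hY]; positivity
    have h5 : ((Cen d n c₀ r).ncard : ℝ) ≤ M + n * (A * Real.exp (ε * n) * (1 + Y)) := by
      have e3 : (Cen d n c₀ r).ncard ≤ (Ex d n c₀ r).ncard +
          ∑ m ∈ Finset.Icc 1 (n / 2), (Cen d m c₀ r).ncard := by
        have hfin : (⋃ m ∈ Finset.Icc 1 (n / 2), Cen d m c₀ r).Finite := by
          apply Set.Finite.biUnion (Finset.finite_toSet _)
          intro m hm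
          exact Cen_fin hd (Finset.mem_Icc.1 hm).1 _ _
        have hfin2 : (Ex d n c₀ r).Finite := (Cen_fin hd hn c₀ r).subset (Ex_sub n r)
        refine (ncard_le_ncard (Cen_sub n hn r) (hfin2.union hfin)).trans ?_
        refine (ncard_union_le _ _).trans ?_
        gcongr
        exact Finset.set_ncard_biUnion_le _ _
      have e4 : ∀ m ∈ Finset.Icc 1 (n / 2), ((Cen d m c₀ r).ncard : ℝ) ≤
          A * Real.exp (ε * n) * (1 + Y) := by
        intro m hm
        rw [Finset.mem_Icc] at hm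
        refine (HU m r hm.1 hr0 hr1).trans ?_
        have hmn : m ≤ n := hm.2.trans (Nat.div_le_self _ _)
        have e5 : (m : ℝ) ≤ n := by exact_mod_cast hmn
        rw [hY]
        gcongr
        · exact hd1.le
        · exact hm.2
      have e6 : ((∑ m ∈ Finset.Icc 1 (n / 2), (Cen d m c₀ r).ncard : ℕ) : ℝ) ≤
          n * (A * Real.exp (ε * n) * (1 + Y)) := by
        push_cast
        refine (Finset.sum_le_card_nsmul _ _ _ e4).trans ?_
        rw [nsmul_eq_mul]
        have : ((Finset.Icc 1 (n / 2)).card : ℝ) ≤ n := by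
          rw [Nat.card_Icc]
          exact_mod_cast (by omega : n / 2 + 1 - 1 ≤ n)
        gcongr
      calc ((Cen d n c₀ r).ncard : ℝ) ≤ (((Ex d n c₀ r).ncard +
            ∑ m ∈ Finset.Icc 1 (n / 2), (Cen d m c₀ r).ncard : ℕ) : ℝ) := by exact_mod_cast e3
        _ = M + ((∑ m ∈ Finset.Icc 1 (n / 2), (Cen d m c₀ r).ncard : ℕ) : ℝ) := by
            rw [Nat.cast_add, hM]
        _ ≤ _ := by linarith
    obtain ⟨E, hE⟩ : ∃ E, E = Real.exp (ε * n) := ⟨_, rfl⟩
    have hE1 : 1 ≤ E := by rw [hE]; exact Real.one_le_exp (by positivity)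
    have hEE : E * E * Real.exp (L / 4 * n) ≤ Real.exp (L / 2 * n) := by
      rw [hE, ← Real.exp_add, ← Real.exp_add]
      apply Real.exp_le_exp.2
      have : 8 * ε * n ≤ L * n := by gcongr
      linarith
    rw [← hE] at h4 h5 e2
    -- `Y` is much smaller than `X`
    have h6 : Real.exp (L / 2 * n) * Y ≤ X := by
      have e3 : (d : ℝ) ^ n = (d : ℝ) ^ (n - n / 2) * (d : ℝ) ^ (n / 2) := by
        rw [← pow_add]; congr 1; omega
      have e4 : Real.exp (L / 2 * n) ≤ (d : ℝ) ^ (n - n / 2) := by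
        rw [← Real.rpow_natCast, Real.rpow_def_of_pos hd0, ← hL]
        apply Real.exp_le_exp.2
        have e5 : (n : ℝ) ≤ 2 * ((n - n / 2 : ℕ) : ℝ) := by
          exact_mod_cast (by omega : n ≤ 2 * (n - n / 2))
        nlinarith
      rw [hX, hY, e3, mul_assoc]
      gcongr
    have h7 : E * (n * (A * E * Y)) ≤ a / 2 * X := by
      have e3 : n * A ≤ a / 2 * Real.exp (L / 4 * n) := by
        have e4 : a / 2 * (2 / a * A * (1 + n)) = A * (1 + n) := by field_simp
        have e5 := mul_le_mul_of_nonneg_left e1 (show 0 ≤ a / 2 by positivity)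
        rw [e4] at e5
        linarith
      calc E * (n * (A * E * Y)) = n * A * (E * E) * Y := by ring
        _ ≤ a / 2 * Real.exp (L / 4 * n) * (E * E) * Y := by gcongr
        _ = a / 2 * ((E * E * Real.exp (L / 4 * n)) * Y) := by ring
        _ ≤ a / 2 * (Real.exp (L / 2 * n) * Y) := by gcongr
        _ ≤ a / 2 * X := by gcongr
    have h8 : a / 2 * X ≤ E * (1 + M + n * (A * E)) := by
      have e3 : a * X ≤ E * (M + n * (A * E * (1 + Y)) + 1) :=
        h4.trans (by gcongr)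
      have e4 : E * (M + n * (A * E * (1 + Y)) + 1) =
          E * (1 + M + n * (A * E)) + E * (n * (A * E * Y)) := by ring
      rw [e4] at e3
      linarith
    have h9 : E * (1 + M + n * (A * E)) ≤ E * E * ((1 + A) * (1 + n)) * (1 + M) := by
      have e3 : 1 + M + n * (A * E) ≤ E * ((1 + A) * (1 + n)) * (1 + M) := by
        have e4 : 1 + M ≤ E * (1 + n) * (1 + M) := by
          have : 1 ≤ E * (1 + n) := by nlinarith
          nlinarith
        have e5 : n * (A * E) ≤ E * (A * (1 + n)) * (1 + M) := by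
          have e6 : 0 ≤ A * E := by positivity
          have e7 : n * (A * E) ≤ (A * E) * (1 + n) := by nlinarith
          have e8 : 0 ≤ (A * E) * (1 + n) := by positivity
          nlinarith
        nlinarith
      calc E * (1 + M + n * (A * E)) ≤ E * (E * ((1 + A) * (1 + n)) * (1 + M)) := by gcongr
        _ = _ := by ring
    have h10 : X ≤ E * E * (2 / a * (1 + A) * (1 + n)) * (1 + M) := by
      have e3 := mul_le_mul_of_nonneg_left (h8.trans h9) (show 0 ≤ 2 / a by positivity)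
      have e4 : 2 / a * (a / 2 * X) = X := by field_simp
      rw [e4] at e3
      calc X ≤ _ := e3
        _ = _ := by ring
    calc X ≤ E * E * (2 / a * (1 + A) * (1 + n)) * (1 + M) := h10
      _ ≤ E * E * E * (1 + M) := by gcongr
      _ ≤ Real.exp (δ * n) * (1 + M) := by
          gcongr
          rw [hE, ← Real.exp_add, ← Real.exp_add]
          apply Real.exp_le_exp.2
          have : 3 * ε * n ≤ δ * n := by gcongr
          linarith

/-- upper bound for exact periods, without a constant -/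
theorem up_ex (hd : 2 ≤ d) (h : Lyap d χ c₀) {δ : ℝ} (hδ : 0 < δ) :
    ∀ᶠ n : ℕ in atTop, ∀ r : ℝ, 0 < r → r ≤ 1 →
      ((Ex d n c₀ r).ncard : ℝ) ≤
        Real.exp (δ * n) * (1 + (d : ℝ) ^ n * r ^ (Real.log d / χ)) := by
  obtain ⟨A, hA, HU⟩ := up hd h (half_pos hδ)
  filter_upwards [eventually_ge_atTop 1, ev_const A (half_pos hδ)] with n hn e1 r hr0 hr1
  have hd0 : (0 : ℝ) < d := by exact_mod_cast (by omega : 0 < d)
  have h1 : ((Ex d n c₀ r).ncard : ℝ) ≤ (Cen d n c₀ r).ncard := by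
    exact_mod_cast ncard_le_ncard (Ex_sub n r) (Cen_fin hd hn c₀ r)
  refine h1.trans ((HU n r hn hr0 hr1).trans ?_)
  have h2 : A * Real.exp (δ / 2 * n) ≤ Real.exp (δ * n) := by
    calc A * Real.exp (δ / 2 * n) ≤ Real.exp (δ / 2 * n) * Real.exp (δ / 2 * n) := by gcongr
      _ = Real.exp (δ * n) := by rw [← Real.exp_add]; congr 1; ring
  gcongr

/-- **No superattracting parameters of period `n` below the scale of the exponent.** -/
theorem none (hd : 2 ≤ d) (h : Lyap d χ c₀) {β : ℝ} (hβ : χ < β) :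
    ∀ᶠ n : ℕ in atTop, Cen d n c₀ (Real.exp (-(β * n))) = ∅ := by
  obtain ⟨β', hβ'⟩ := exists_beta (d := d) hd
  obtain ⟨ψ, hψ⟩ : ∃ ψ, IsExteriorMap (multibrotSet d) ψ := ⟨_, exteriorMap_of_beta hβ'⟩
  have hχ := h.1
  have hd1 : (1 : ℝ) < d := by exact_mod_cast (by omega : 1 < d)
  have hd0 : (0 : ℝ) < d := by linarith
  obtain ⟨L, hL⟩ : ∃ L, L = Real.log d := ⟨_, rfl⟩
  have hL0 : 0 < L := by rw [hL]; exact Real.log_pos hd1
  obtain ⟨γ, hγ⟩ : ∃ γ, γ = (χ + β) / 2 := ⟨_, rfl⟩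
  have hγ1 : χ < γ := by rw [hγ]; linarith
  have hγ2 : γ < β := by rw [hγ]; linarith
  have hγ0 : 0 < γ := by linarith
  obtain ⟨κ, hκ⟩ : ∃ κ, κ = (L / γ + L / χ) / 2 := ⟨_, rfl⟩
  have hLL : L / γ < L / χ := by
    apply div_lt_div_of_pos_left hL0 hχ hγ1
  have hκ1 : L / γ < κ := by rw [hκ]; linarith
  have hκ2 : κ < L / χ := by rw [hκ]; linarith
  have hκ0 : 0 < κ := lt_trans (by positivity) hκ1
  have hgap : 0 < γ * κ - L := by
    rw [div_lt_iff₀ hγ0] at hκ1
    linarith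
  obtain ⟨K, s₀, hK, hs₀, HU⟩ := lyap_up hd h hκ0 (by rw [← hL]; exact hκ2)
  obtain ⟨ε, hε⟩ : ∃ ε, ε = (β - γ) / 2 := ⟨_, rfl⟩
  have hε0 : 0 < ε := by rw [hε]; linarith
  obtain ⟨-, hlya⟩ := Pool.Agent.Y674.CA.lya d χ c₀ hd h
  obtain ⟨C, hC, HC⟩ := hlya ε hε0
  filter_upwards [eventually_ge_atTop 1, ev_const K hgap, ev_const (1 / s₀) hγ0,
    ev_const (12 * C + 1) hε0] with n hn e1 e2 e3
  obtain ⟨N, rfl⟩ : ∃ N, n = N + 1 := ⟨n - 1, by omega⟩
  obtain ⟨x, hx⟩ : ∃ x : ℝ, x = ((N + 1 : ℕ) : ℝ) := ⟨_, rfl⟩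
  rw [← hx] at e1 e2 e3 ⊢
  have hx0 : 0 < x := by rw [hx]; positivity
  rw [eq_empty_iff_forall_notMem]
  rintro z ⟨hz1, hz2⟩
  obtain ⟨s, hs⟩ : ∃ s, s = Real.exp (-(γ * x)) := ⟨_, rfl⟩
  have hs0 : 0 < s := by rw [hs]; exact Real.exp_pos _
  have hss₀ : s ≤ s₀ := by
    rw [hs, Real.exp_neg]
    rw [div_le_iff₀ hs₀] at e2
    rw [inv_le_comm₀ (Real.exp_pos _) hs₀]
    rw [inv_eq_one_div, div_le_iff₀ hs₀]
    exact e2
  have hdN : (d : ℝ) ^ N ≤ Real.exp (L * x) := by
    have : Real.exp (L * x) = (d : ℝ) ^ (N + 1) := by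
      rw [hL, hx, mul_comm, Real.exp_nat_mul, Real.exp_log hd0]
    rw [this]
    exact pow_le_pow_right₀ hd1.le (Nat.le_succ N)
  have hbd : ∀ y ∈ ball c₀ s, ‖P d (N + 1) y‖ ≤ 5.5 := by
    intro y hy
    have hS : (d : ℝ) ^ N * (K * s ^ κ) ≤ 1 := by
      have h1 : s ^ κ = Real.exp (-(γ * κ * x)) := by
        rw [hs, ← Real.exp_mul]; congr 1; ring
      calc (d : ℝ) ^ N * (K * s ^ κ) ≤ Real.exp (L * x) * (Real.exp ((γ * κ - L) * x) * s ^ κ) := by
            gcongr
        _ = 1 := by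
            rw [h1, ← Real.exp_add, ← Real.exp_add]
            rw [show L * x + ((γ * κ - L) * x + -(γ * κ * x)) = 0 by ring, Real.exp_zero]
    have h2 := P_le_of_green hd hψ (x := y) (S := K * s ^ κ) (by positivity) (by
      intro w hw hwy
      refine HU ψ hψ s hs0 hss₀ w hw ?_
      rw [hwy]
      rw [mem_ball, dist_eq_norm] at hy
      exact hy.le) N
    refine h2.trans ?_
    have h3 : Real.exp ((d : ℝ) ^ N * (K * s ^ κ)) ≤ Real.exp 1 := Real.exp_le_exp.2 hS
    have h4 := Real.exp_one_lt_d9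
    linarith
  have hdiff : DifferentiableOn ℂ (P d (N + 1)) (ball c₀ s) := by
    have : P d (N + 1) = fun c => (PP d (N + 1)).eval c := by
      ext c; rw [eval_PP]
    rw [this]
    exact (Polynomial.differentiable _).differentiableOn
  have hmaps : MapsTo (P d (N + 1)) (ball c₀ s) (closedBall (P d (N + 1) c₀) 12) := by
    intro y hy
    rw [mem_closedBall, dist_eq_norm]
    have h1 := hbd y hy
    have h2 := hbd c₀ (mem_ball_self hs0)
    have h3 := norm_sub_le (P d (N + 1) y) (P d (N + 1) c₀)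
    linarith
  have hzs : z ∈ ball c₀ s := by
    refine ball_subset_ball ?_ hz1
    rw [hs]
    apply Real.exp_le_exp.2
    have : γ * x ≤ β * x := by gcongr
    linarith
  have h1 := Complex.dist_le_div_mul_dist_of_mapsTo_ball hdiff hmaps hzs
  rw [hz2, dist_eq_norm, zero_sub, norm_neg] at h1
  rw [mem_ball] at hz1
  have h2 : ‖P d (N + 1) c₀‖ ≤ 12 * Real.exp (-((β - γ) * x)) := by
    refine h1.trans ?_
    calc 12 / s * dist z c₀ ≤ 12 / s * Real.exp (-(β * x)) := by gcongr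
      _ = 12 * (Real.exp (γ * x) * Real.exp (-(β * x))) := by
          rw [hs, Real.exp_neg (γ * x)]
          field_simp
      _ = _ := by rw [← Real.exp_add]; congr 2; ring
  have h3 : P d (N + 1) c₀ = Pool.Agent.Y298.SH.CD.zz d c₀ N := by
    rw [Pool.Agent.Y298.SH.CD.P_succ_eq hd]; rfl
  obtain ⟨-, -, h4⟩ := HC N
  rw [← h3] at h4
  have h5 : Real.exp (ε * N) ≤ Real.exp (ε * x) := by
    apply Real.exp_le_exp.2
    have : (N : ℝ) ≤ x := by rw [hx]; push_cast; linarith
    gcongr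
  have h6 : 1 ≤ C * Real.exp (ε * x) * (12 * Real.exp (-((β - γ) * x))) := by
    refine h4.trans ?_
    gcongr
  have h7 : C * Real.exp (ε * x) * (12 * Real.exp (-((β - γ) * x))) =
      12 * C * Real.exp (-(ε * x)) := by
    have : Real.exp (-(ε * x)) = Real.exp (ε * x) * Real.exp (-((β - γ) * x)) := by
      rw [← Real.exp_add]; congr 1; rw [hε]; ring
    rw [this]; ring
  rw [h7] at h6
  have h8 : Real.exp (ε * x) ≤ 12 * C := by
    have h9 := mul_le_mul_of_nonneg_right h6 (Real.exp_pos (ε * x)).le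
    rw [one_mul, mul_assoc, ← Real.exp_add] at h9
    simpa using h9
  linarith

/-- **The distance to the superattracting parameters of period `n`.** -/
theorem dist_law (hd : 2 ≤ d) (h : Lyap d χ c₀) :
    Tendsto (fun n : ℕ => Real.log (infDist c₀ {c | Function.minimalPeriod (fc d c) 0 = n}) / n)
      atTop (𝓝 (-χ)) := by
  have hχ := h.1
  have hd1 : (1 : ℝ) < d := by exact_mod_cast (by omega : 1 < d)
  have hd0 : (0 : ℝ) < d := by linarith
  obtain ⟨κ, hκ⟩ : ∃ κ, κ = Real.log d / χ := ⟨_, rfl⟩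
  have hL0 : 0 < Real.log d := Real.log_pos hd1
  have hκ0 : 0 < κ := by rw [hκ]; positivity
  have hκχ : κ * χ = Real.log d := by rw [hκ]; field_simp
  rw [Metric.tendsto_atTop']
  intro ε' hε'
  obtain ⟨ε, hε⟩ : ∃ ε, ε = min (ε' / 2) (χ / 2) := ⟨_, rfl⟩
  have hε0 : 0 < ε := by rw [hε]; exact lt_min (by linarith) (by linarith)
  have hε1 : ε < ε' := by
    have : ε ≤ ε' / 2 := by rw [hε]; exact min_le_left _ _
    linarith
  have hε2 : ε < χ := by
    have : ε ≤ χ / 2 := by rw [hε]; exact min_le_right _ _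
    linarith
  have key : ∀ᶠ n : ℕ in atTop,
      |Real.log (infDist c₀ {c | Function.minimalPeriod (fc d c) 0 = n}) / n - (-χ)| < ε' := by
    have hδ : 0 < κ * ε / 2 := by positivity
    filter_upwards [eventually_ge_atTop 1, low_ex hd h hδ, none hd h (β := χ + ε) (by linarith),
      ev_const 2 hδ] with n hn e1 e2 e3
    have hx0 : (0 : ℝ) < n := by exact_mod_cast hn
    obtain ⟨r, hr⟩ : ∃ r, r = Real.exp (-((χ - ε) * n)) := ⟨_, rfl⟩
    have hr0 : 0 < r := by rw [hr]; exact Real.exp_pos _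
    have hr1 : r ≤ 1 := by
      rw [hr, ← Real.exp_zero]
      apply Real.exp_le_exp.2
      have : 0 ≤ (χ - ε) * n := mul_nonneg (by linarith) hx0.le
      linarith
    have h1 := e1 r hr0 hr1
    rw [← hκ] at h1
    have h2 : (d : ℝ) ^ n * r ^ κ = Real.exp (κ * ε * n) := by
      have : (d : ℝ) ^ n = Real.exp (κ * χ * n) := by
        rw [hκχ, mul_comm, Real.exp_nat_mul, Real.exp_log hd0]
      rw [this, hr, ← Real.exp_mul, ← Real.exp_add]
      congr 1
      ring
    rw [h2] at h1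
    have h3 : Real.exp (κ * ε * n) = Real.exp (κ * ε / 2 * n) * Real.exp (κ * ε / 2 * n) := by
      rw [← Real.exp_add]; congr 1; ring
    rw [h3] at h1
    have h4 := le_of_mul_le_mul_left h1 (Real.exp_pos _)
    have h5 : 0 < (Ex d n c₀ r).ncard := by
      have : (1 : ℝ) ≤ (Ex d n c₀ r).ncard := by linarith
      exact_mod_cast this
    obtain ⟨c, hc1, hc2⟩ := (Set.nonempty_of_ncard_ne_zero h5.ne')
    have hne : ({c | Function.minimalPeriod (fc d c) 0 = n} : Set ℂ).Nonempty := ⟨c, hc2⟩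
    have h6 : infDist c₀ {c | Function.minimalPeriod (fc d c) 0 = n} ≤ r := by
      have h7 := infDist_le_dist_of_mem (x := c₀)
        (show c ∈ {c | Function.minimalPeriod (fc d c) 0 = n} from hc2)
      rw [mem_ball, dist_comm] at hc1
      exact h7.trans hc1.le
    have h7 : Real.exp (-((χ + ε) * n)) ≤
        infDist c₀ {c | Function.minimalPeriod (fc d c) 0 = n} := by
      rw [le_infDist hne]
      intro y hy
      by_contra hcon
      push Not at hcon
      have h8 : y ∈ Cen d n c₀ (Real.exp (-((χ + ε) * n))) :=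
        Ex_sub n _ ⟨by rw [mem_ball, dist_comm]; exact hcon, hy⟩
      rw [e2] at h8
      exact h8
    have h8 : 0 < infDist c₀ {c | Function.minimalPeriod (fc d c) 0 = n} :=
      (Real.exp_pos _).trans_le h7
    have h9 := Real.log_le_log (Real.exp_pos _) h7
    have h10 := Real.log_le_log h8 h6
    rw [Real.log_exp] at h9
    rw [hr, Real.log_exp] at h10
    rw [abs_lt]
    constructor
    · rw [sub_neg_eq_add, ← sub_lt_iff_lt_add, lt_div_iff₀ hx0]
      nlinarith
    · rw [sub_neg_eq_add, ← lt_sub_iff_add_lt, div_lt_iff₀ hx0]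
      nlinarith
  obtain ⟨n₀, hn₀⟩ := eventually_atTop.1 key
  refine ⟨n₀, fun n hn => ?_⟩
  rw [Real.dist_eq]
  exact hn₀ n (le_of_lt hn)

theorem cen_all (hd : 2 ≤ d) {n : ℕ} (hn : 1 ≤ n) : {c | P d n c = 0}.Finite := by
  classical
  obtain ⟨N, rfl⟩ : ∃ N, n = N + 1 := ⟨n - 1, by omega⟩
  have h0 : PP d (N + 1) ≠ 0 := by
    intro h
    have h1 := natDegree_PP hd N
    rw [h, Polynomial.natDegree_zero] at h1
    have : 0 < d ^ N := pow_pos (by omega) N
    omega
  refine ((PP d (N + 1)).roots.toFinset.finite_toSet).subset ?_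
  intro x hx
  rw [Finset.mem_coe, Multiset.mem_toFinset, Polynomial.mem_roots h0, Polynomial.IsRoot.def,
    eval_PP]
  exact hx

theorem per_zero {n : ℕ} {c : ℂ} (h : Function.minimalPeriod (fc d c) 0 = n) : P d n c = 0 := by
  have := Function.iterate_minimalPeriod (f := fc d c) (x := (0 : ℂ))
  rw [h] at this
  exact this

theorem att (d : ℕ) (hd : 2 ≤ d) (n : ℕ) (hn : 1 ≤ n) (c : ℂ)
    (hc : Function.minimalPeriod (fc d c) 0 = n) : c ∈ N62a1eb23.multibrotSet d ∧
        N62a1eb23.IsAttractingCycle (fun z => z ^ d + c) n 0 := by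
  have hp : Function.IsPeriodicPt (fc d c) n 0 := by
    have := Function.isPeriodicPt_minimalPeriod (fc d c) (0 : ℂ)
    rwa [hc] at this
  have hdiff : Differentiable ℂ (fc d c) := by
    unfold fc; fun_prop
  refine ⟨?_, by omega, hp, (hdiff.iterate n) 0, ?_⟩
  · intro h
    have h1 : Tendsto (fun k : ℕ => k * n) atTop atTop :=
      tendsto_id.atTop_mul_const' (by omega)
    have h2 := h.comp h1
    have h3 : ((fun k => (fun z => z ^ d + c)^[k] 0) ∘ fun k : ℕ => k * n) = fun _ : ℕ => (0 : ℂ) := by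
      ext k
      exact hp.const_mul k
    rw [h3] at h2
    have h4 : ({0}ᶜ : Set ℂ) ∈ Bornology.cobounded ℂ :=
      Bornology.isBounded_singleton
    have h5 := h2 h4
    simp at h5
  · have h1 : HasDerivAt (fc d c) 0 0 := by
      have h2 : HasDerivAt (fun z : ℂ => z ^ d + c) ((d : ℂ) * 0 ^ (d - 1)) 0 :=
        (hasDerivAt_pow d 0).add_const c
      rw [zero_pow (by omega), mul_zero] at h2
      exact h2
    obtain ⟨m, rfl⟩ : ∃ m, n = m + 1 := ⟨n - 1, by omega⟩
    have h2 : HasDerivAt ((fc d c)^[m]) (deriv ((fc d c)^[m]) (fc d c 0)) (fc d c 0) :=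
      ((hdiff.iterate m) _).hasDerivAt
    have h3 := h2.comp 0 h1
    rw [mul_zero] at h3
    have h4 : deriv ((fc d c)^[m + 1]) 0 = 0 := by
      rw [Function.iterate_succ]
      exact h3.deriv
    change ‖deriv ((fc d c)^[m + 1]) 0‖ < 1
    rw [h4]
    simp

end Pool.Agent.N896.MB
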