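import Pool.Agent.R240.Growth
import Pool.Agent.Y298.CA.Typ

set_option autoImplicit false

/-! # Counting superattracting parameters at all radii near a parameter with a Lyapunov exponent -/

namespace Pool.Agent.N896.MB

open Complex Metric Set Filter Topology MeasureTheory Pool.Agent.H712R2 Pool.Agent.H713R2
open N62a1eb23 Polynomial Pool.Agent.R240 Pool.Agent.Y736.HG Pool.Agent.Y298.CA
open Pool.Agent.Y736.HD (Ang GS ev_lt ev_pos)

variable {d : ℕ} {χ : ℝ} {c₀ : ℂ}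

theorem Cen_mono (n : ℕ) {r s : ℝ} (h : r ≤ s) : Cen d n c₀ r ⊆ Cen d n c₀ s :=
  fun _ hx => ⟨ball_subset_ball h hx.1, hx.2⟩

theorem Cen_fin (hd : 2 ≤ d) {n : ℕ} (hn : 1 ≤ n) (c : ℂ) (r : ℝ) : (Cen d n c r).Finite := by
  obtain ⟨N, rfl⟩ : ∃ N, n = N + 1 := ⟨n - 1, by omega⟩
  exact Cen_finite hd N c r

theorem card_mono (hd : 2 ≤ d) {n : ℕ} (hn : 1 ≤ n) {r s : ℝ} (h : r ≤ s) :
    (Cen d n c₀ r).ncard ≤ (Cen d n c₀ s).ncard :=
  ncard_le_ncard (Cen_mono n h) (Cen_fin hd hn _ _)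

theorem card_triv (hd : 2 ≤ d) (N : ℕ) (c : ℂ) (r : ℝ) : (Cen d (N + 1) c r).ncard ≤ d ^ N := by
  classical
  have h0 : PP d (N + 1) ≠ 0 := by
    intro h
    have h1 := natDegree_PP hd N
    rw [h, Polynomial.natDegree_zero] at h1
    have : 0 < d ^ N := pow_pos (by omega) N
    omega
  have h1 : Cen d (N + 1) c r ⊆ ((PP d (N + 1)).roots.toFinset : Set ℂ) := by
    rintro x ⟨-, hx⟩
    rw [Finset.mem_coe, Multiset.mem_toFinset, Polynomial.mem_roots h0, Polynomial.IsRoot.def,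
      eval_PP]
    exact hx
  calc (Cen d (N + 1) c r).ncard ≤ ((PP d (N + 1)).roots.toFinset : Set ℂ).ncard :=
        ncard_le_ncard h1 (Finset.finite_toSet _)
    _ = (PP d (N + 1)).roots.toFinset.card := ncard_coe_finset _
    _ ≤ (PP d (N + 1)).roots.card := Multiset.toFinset_card_le _
    _ ≤ (PP d (N + 1)).natDegree := Polynomial.card_roots' _
    _ = d ^ N := natDegree_PP hd N

/-- **Lower bound** at all radii. -/
theorem low (hd : 2 ≤ d) (h : Lyap d χ c₀) {η : ℝ} (hη : 0 < η) :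
    ∃ a : ℝ, 0 < a ∧ ∀ (n : ℕ) (r : ℝ), 1 ≤ n → 0 < r → r ≤ 1 →
      a * ((d : ℝ) ^ n * r ^ (Real.log d / χ + η)) ≤ (Cen d n c₀ r).ncard + 1 := by
  obtain ⟨β', hβ'⟩ := exists_beta (d := d) hd
  obtain ⟨ψ, hψ⟩ : ∃ ψ, IsExteriorMap (multibrotSet d) ψ := ⟨_, exteriorMap_of_beta hβ'⟩
  have hd0 : (0 : ℝ) < d := by exact_mod_cast (by omega : 0 < d)
  obtain ⟨κ, hκ⟩ : ∃ κ, κ = Real.log d / χ := ⟨_, rfl⟩
  have hκ0 : 0 < κ := by rw [hκ]; exact kap_pos hd h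
  have ev := vol_lower hd h hψ hη
  rw [eventually_nhdsWithin_iff, Metric.eventually_nhds_iff] at ev
  obtain ⟨r₀, hr₀, ev⟩ := ev
  obtain ⟨s, hs⟩ : ∃ s, s = min (1 : ℝ) (r₀ / 2) := ⟨_, rfl⟩
  have hs0 : 0 < s := by rw [hs]; exact lt_min one_pos (by linarith)
  have hs1 : s ≤ 1 := by rw [hs]; exact min_le_left _ _
  have hs2 : s < r₀ := by
    have : s ≤ r₀ / 2 := by rw [hs]; exact min_le_right _ _
    linarith
  have hK := KK_pos
  refine ⟨(s / 2) ^ (κ + η) / (KK * d), by positivity, ?_⟩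
  intro n r hn hr0 hr1
  obtain ⟨N, rfl⟩ : ∃ N, n = N + 1 := ⟨n - 1, by omega⟩
  have h1 := count_lower hd hψ N c₀ (r := r * s) (by positivity)
  have h2 : (r * s / 2) ^ (κ + η) ≤ (volume (Ang ψ c₀ (r * s / 2))).toReal := by
    have hpos : 0 < r * s / 2 := by positivity
    have := ev (y := r * s / 2) (by
      rw [Real.dist_eq, sub_zero, abs_of_pos hpos]
      nlinarith) hpos
    rwa [← hκ] at this
  have h3 : ((Cen d (N + 1) c₀ (r * s)).ncard : ℝ) ≤ (Cen d (N + 1) c₀ r).ncard := by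
    exact_mod_cast card_mono hd hn (by nlinarith)
  have h4 : (d : ℝ) ^ N * (r * s / 2) ^ (κ + η) ≤ KK * ((Cen d (N + 1) c₀ r).ncard + 1) := by
    calc (d : ℝ) ^ N * (r * s / 2) ^ (κ + η)
        ≤ (d : ℝ) ^ N * (volume (Ang ψ c₀ (r * s / 2))).toReal := by gcongr
      _ ≤ KK * ((Cen d (N + 1) c₀ (r * s)).ncard + 1) := h1
      _ ≤ _ := by gcongr
  have h5 : (r * s / 2) ^ (κ + η) = r ^ (κ + η) * (s / 2) ^ (κ + η) := by
    rw [mul_div_assoc, Real.mul_rpow hr0.le (by positivity)]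
  rw [h5] at h4
  rw [← hκ]
  have h6 : (s / 2) ^ (κ + η) / (KK * d) * ((d : ℝ) ^ (N + 1) * r ^ (κ + η)) =
      (d : ℝ) ^ N * (r ^ (κ + η) * (s / 2) ^ (κ + η)) / KK := by
    rw [pow_succ]
    field_simp
  rw [h6, div_le_iff₀ hK]
  linarith

/-- upper bound, for radii which are not too small -/
theorem up_aux (hd : 2 ≤ d) (h : Lyap d χ c₀) {η : ℝ} (hη : 0 < η) (hηκ : η < Real.log d / χ) :
    ∃ r₁ K : ℝ, 0 < r₁ ∧ r₁ ≤ 1 ∧ 0 < K ∧ ∀ (N : ℕ) (r : ℝ), 0 < r → r < r₁ →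
      4 ≤ (d : ℝ) ^ N * r ^ (Real.log d / χ + η) →
      ((Cen d (N + 1) c₀ r).ncard : ℝ) ≤ 1 + K * ((d : ℝ) ^ N * r ^ (Real.log d / χ - η)) := by
  obtain ⟨β', hβ'⟩ := exists_beta (d := d) hd
  obtain ⟨ψ, hψ⟩ : ∃ ψ, IsExteriorMap (multibrotSet d) ψ := ⟨_, exteriorMap_of_beta hβ'⟩
  obtain ⟨κ, hκ⟩ : ∃ κ, κ = Real.log d / χ := ⟨_, rfl⟩
  rw [← hκ] at hηκ
  obtain ⟨K, s₀, hK, hs₀, HU⟩ := lyap_up hd h (κ := κ - η) (by linarith) (by rw [← hκ]; linarith)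
  have ev := (sup_lower hd h hψ hη).and (GS_bdd hd h hψ)
  rw [eventually_nhdsWithin_iff, Metric.eventually_nhds_iff] at ev
  obtain ⟨r₀, hr₀, ev⟩ := ev
  have hlog2 : 0 < Real.log 2 := Real.log_pos (by norm_num)
  refine ⟨min (min r₀ (s₀ / 8)) 1, K * 8 ^ (κ - η) / Real.log 2,
    lt_min (lt_min hr₀ (by positivity)) one_pos, min_le_right _ _, by positivity, ?_⟩
  intro N r hr0 hr1 hN
  have hr2 : r < r₀ := hr1.trans_le ((min_le_left _ _).trans (min_le_left _ _))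
  have hr3 : r < s₀ / 8 := hr1.trans_le ((min_le_left _ _).trans (min_le_right _ _))
  have hr4 : r < 1 := hr1.trans_le (min_le_right _ _)
  have hd0 : (0 : ℝ) < d := by exact_mod_cast (by omega : 0 < d)
  rw [← hκ] at hN ⊢
  obtain ⟨e1, e2⟩ := ev (y := r) (by
    rw [Real.dist_eq, sub_zero, abs_of_pos hr0]; exact hr2) hr0
  rw [← hκ] at e1
  have hpos : 0 < r ^ (κ + η) := by positivity
  have hne : (GS ψ c₀ r).Nonempty := by
    by_contra hcon
    rw [not_nonempty_iff_eq_empty] at hcon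
    rw [hcon, Real.sSup_empty] at e1
    linarith
  obtain ⟨_, ⟨w₀, hw1, hw2, rfl⟩, hw3⟩ := exists_lt_of_lt_csSup hne
    (show r ^ (κ + η) / 2 < sSup (GS ψ c₀ r) by linarith)
  have hN4 : Real.log 4 < (d : ℝ) ^ N * Real.log ‖w₀‖ := by
    have h1 : (d : ℝ) ^ N * (r ^ (κ + η) / 2) < (d : ℝ) ^ N * Real.log ‖w₀‖ :=
      mul_lt_mul_of_pos_left hw3 (by positivity)
    have h2 : Real.log 4 < 2 := by
      have : Real.log 4 = 2 * Real.log 2 := by
        rw [show (4 : ℝ) = 2 ^ 2 by norm_num, Real.log_pow]; norm_num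
      rw [this]
      have := Real.log_two_lt_d9
      linarith
    nlinarith
  have hcu := count_upper (N := N) hd hψ h.2.1 hr0 hr4.le (S := K * (8 * r) ^ (κ - η))
    (by positivity) (fun w hw hwr => HU ψ hψ (8 * r) (by positivity) (by linarith) w hw hwr)
    hw1 hw2 hN4
  rw [Real.mul_rpow (by norm_num) hr0.le] at hcu
  have h6 : K * 8 ^ (κ - η) / Real.log 2 * ((d : ℝ) ^ N * r ^ (κ - η)) =
      (d : ℝ) ^ N * (K * (8 ^ (κ - η) * r ^ (κ - η))) / Real.log 2 := by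
    field_simp
  rw [h6, ← sub_le_iff_le_add', le_div_iff₀ hlog2]
  linarith


/-- **Upper bound** at all radii. -/
theorem up (hd : 2 ≤ d) (h : Lyap d χ c₀) {δ : ℝ} (hδ : 0 < δ) :
    ∃ A : ℝ, 0 < A ∧ ∀ (n : ℕ) (r : ℝ), 1 ≤ n → 0 < r → r ≤ 1 →
      ((Cen d n c₀ r).ncard : ℝ) ≤
        A * Real.exp (δ * n) * (1 + (d : ℝ) ^ n * r ^ (Real.log d / χ)) := by
  have hχ := h.1
  have hd1 : (1 : ℝ) < d := by exact_mod_cast (by omega : 1 < d)
  have hd0 : (0 : ℝ) < d := by linarith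
  have hL : 0 < Real.log d := Real.log_pos hd1
  obtain ⟨κ, hκ⟩ : ∃ κ, κ = Real.log d / χ := ⟨_, rfl⟩
  have hκ0 : 0 < κ := by rw [hκ]; positivity
  have hκχ : κ * χ = Real.log d := by rw [hκ]; field_simp
  obtain ⟨η, hη⟩ : ∃ η, η = min (κ / 2) (δ / (2 * χ)) := ⟨_, rfl⟩
  have hη0 : 0 < η := by rw [hη]; exact lt_min (by linarith) (by positivity)
  have hη1 : η < κ := by
    have : η ≤ κ / 2 := by rw [hη]; exact min_le_left _ _
    linarith
  have hη2 : 2 * χ * η ≤ δ := by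
    have : η ≤ δ / (2 * χ) := by rw [hη]; exact min_le_right _ _
    rw [le_div_iff₀ (by positivity)] at this
    linarith
  obtain ⟨r₁, K, hr₁, hr₁1, hK, H⟩ := up_aux hd h hη0 (by rw [← hκ]; exact hη1)
  simp only [← hκ] at H ⊢
  refine ⟨(1 + 4 * K) + 1 / r₁ ^ κ + 4 / r₁ ^ (κ + η), by positivity, ?_⟩
  intro n r hn hr0 hr1
  obtain ⟨N, rfl⟩ : ∃ N, n = N + 1 := ⟨n - 1, by omega⟩
  have hdN : (0 : ℝ) < (d : ℝ) ^ N := by positivity
  have hdNn : (d : ℝ) ^ N ≤ (d : ℝ) ^ (N + 1) := pow_le_pow_right₀ hd1.le (Nat.le_succ N)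
  obtain ⟨F, hF⟩ : ∃ F, F = Real.exp (δ * ((N + 1 : ℕ) : ℝ)) := ⟨_, rfl⟩
  have hF1 : 1 ≤ F := by rw [hF]; exact Real.one_le_exp (by positivity)
  obtain ⟨X, hX⟩ : ∃ X, X = (d : ℝ) ^ (N + 1) * r ^ κ := ⟨_, rfl⟩
  have hX0 : 0 < X := by rw [hX]; positivity
  rw [← hX, ← hF]
  have hT1 : 0 < 1 / r₁ ^ κ := by positivity
  have hT2 : 0 < 4 / r₁ ^ (κ + η) := by positivity
  have hFX : 1 ≤ F * (1 + X) := by nlinarith
  obtain ⟨T, hT⟩ : ∃ T, T = (1 + 4 * K) + 1 / r₁ ^ κ + 4 / r₁ ^ (κ + η) := ⟨_, rfl⟩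
  have hTa : 1 + 4 * K ≤ T := by rw [hT]; linarith
  have hTb : 1 / r₁ ^ κ ≤ T := by rw [hT]; linarith
  have hTc : 4 / r₁ ^ (κ + η) ≤ T := by rw [hT]; linarith
  rw [← hT]
  obtain ⟨ρ₀, hρ₀⟩ : ∃ ρ₀, ρ₀ = (4 / (d : ℝ) ^ N) ^ (1 / (κ + η)) := ⟨_, rfl⟩
  have hρ₀0 : 0 < ρ₀ := by rw [hρ₀]; positivity
  have hρ₀p : ρ₀ ^ (κ + η) = 4 / (d : ℝ) ^ N := by
    rw [hρ₀, ← Real.rpow_mul (by positivity), one_div_mul_cancel (by positivity), Real.rpow_one]
  have hcard : ((Cen d (N + 1) c₀ r).ncard : ℝ) ≤ (d : ℝ) ^ N := by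
    exact_mod_cast card_triv hd N c₀ r
  by_cases hA : max r ρ₀ < r₁
  · obtain ⟨E, hE⟩ : ∃ E, E = Real.exp (χ * η * N) := ⟨_, rfl⟩
    have hE0 : 0 < E := by rw [hE]; exact Real.exp_pos _
    have hE1 : 1 ≤ E := by rw [hE]; exact Real.one_le_exp (by positivity)
    have hEF : E * E ≤ F := by
      rw [hE, hF, ← Real.exp_add]
      apply Real.exp_le_exp.2
      push_cast
      have h1 : 2 * χ * η * N ≤ δ * N := by gcongr
      nlinarith
    have hg : Real.exp (-(χ * η * N)) ≤ ρ₀ ^ η := by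
      have e1 : ρ₀ ^ η = (ρ₀ ^ (κ + η)) ^ (η / (κ + η)) := by
        rw [← Real.rpow_mul hρ₀0.le]
        congr 1
        field_simp
      have e2 : Real.exp (-(κ * χ * N)) ≤ ρ₀ ^ (κ + η) := by
        rw [hρ₀p, Real.exp_neg, hκχ, mul_comm (Real.log d), Real.exp_nat_mul, Real.exp_log hd0,
          div_eq_mul_inv]
        have : 0 < ((d : ℝ) ^ N)⁻¹ := by positivity
        linarith
      rw [e1]
      calc Real.exp (-(χ * η * N)) ≤ (Real.exp (-(κ * χ * N))) ^ (η / (κ + η)) := by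
            rw [← Real.exp_mul]
            apply Real.exp_le_exp.2
            have : κ * χ * N * (η / (κ + η)) ≤ χ * η * N := by
              rw [mul_div_assoc', div_le_iff₀ (by positivity)]
              have h0 : 0 ≤ χ * η * N * η := by positivity
              have : χ * η * N * (κ + η) = κ * χ * N * η + χ * η * N * η := by ring
              rw [this]
              linarith
            linarith
        _ ≤ _ := Real.rpow_le_rpow (Real.exp_pos _).le e2 (by positivity)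
    have hg' : 1 ≤ E * ρ₀ ^ η := by
      have h1 : E * Real.exp (-(χ * η * N)) = 1 := by
        rw [hE, ← Real.exp_add]; simp
      calc 1 = E * Real.exp (-(χ * η * N)) := h1.symm
        _ ≤ _ := by gcongr
    have hρr : ∀ s, ρ₀ ≤ s → s ^ (κ - η) ≤ E * s ^ κ := by
      intro s hs
      have hs0 : 0 < s := hρ₀0.trans_le hs
      have e1 : ρ₀ ^ η ≤ s ^ η := Real.rpow_le_rpow hρ₀0.le hs hη0.le
      have e2 : s ^ κ = s ^ (κ - η) * s ^ η := by
        rw [← Real.rpow_add hs0]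
        congr 1
        ring
      rw [e2]
      calc s ^ (κ - η) = s ^ (κ - η) * 1 := (mul_one _).symm
        _ ≤ s ^ (κ - η) * (E * s ^ η) := by
            gcongr
            exact hg'.trans (by gcongr)
        _ = _ := by ring
    have h4 : (d : ℝ) ^ N * ρ₀ ^ κ ≤ 4 * E := by
      have e2 : ρ₀ ^ κ * ρ₀ ^ η = 4 / (d : ℝ) ^ N := by
        rw [← Real.rpow_add hρ₀0]; exact hρ₀p
      calc (d : ℝ) ^ N * ρ₀ ^ κ ≤ (d : ℝ) ^ N * ρ₀ ^ κ * (E * ρ₀ ^ η) :=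
            le_mul_of_one_le_right (by positivity) hg'
        _ = (d : ℝ) ^ N * (ρ₀ ^ κ * ρ₀ ^ η) * E := by ring
        _ = 4 * E := by rw [e2]; field_simp
    obtain ⟨ρ, hρ⟩ : ∃ ρ, ρ = max r ρ₀ := ⟨_, rfl⟩
    rw [← hρ] at hA
    have hρ1 : r ≤ ρ := by rw [hρ]; exact le_max_left _ _
    have hρ2 : ρ₀ ≤ ρ := by rw [hρ]; exact le_max_right _ _
    have hρ0 : 0 < ρ := hr0.trans_le hρ1
    have h5 := H N ρ hρ0 hA (by
      have : ρ₀ ^ (κ + η) ≤ ρ ^ (κ + η) := Real.rpow_le_rpow hρ₀0.le hρ2 (by positivity)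
      rw [hρ₀p] at this
      rw [div_le_iff₀ hdN] at this
      linarith)
    have h6 : ((Cen d (N + 1) c₀ r).ncard : ℝ) ≤ (Cen d (N + 1) c₀ ρ).ncard := by
      exact_mod_cast card_mono hd hn hρ1
    have h7 : (d : ℝ) ^ N * ρ ^ κ ≤ X + 4 * E := by
      have h8 : (d : ℝ) ^ N * r ^ κ ≤ X := by rw [hX]; gcongr
      rcases max_choice r ρ₀ with h9 | h9
      · rw [hρ, h9]; linarith
      · rw [hρ, h9]; linarith
    have h8 : (d : ℝ) ^ N * ρ ^ (κ - η) ≤ E * (X + 4 * E) := by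
      calc (d : ℝ) ^ N * ρ ^ (κ - η) ≤ (d : ℝ) ^ N * (E * ρ ^ κ) := by
            gcongr
            exact hρr ρ hρ2
        _ = E * ((d : ℝ) ^ N * ρ ^ κ) := by ring
        _ ≤ _ := by gcongr
    have h9 : E * (X + 4 * E) ≤ F * (X + 4) := by
      have h10 : E ≤ F := by nlinarith
      nlinarith
    have h10 : ((Cen d (N + 1) c₀ r).ncard : ℝ) ≤ 1 + K * (F * (X + 4)) := by
      refine h6.trans (h5.trans ?_)
      have := mul_le_mul_of_nonneg_left (h8.trans h9) hK.le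
      linarith
    have h11 : 1 + K * (F * (X + 4)) ≤ (1 + 4 * K) * F * (1 + X) := by
      have h12 : 0 ≤ K * F * X := by positivity
      nlinarith
    refine h10.trans (h11.trans ?_)
    gcongr
  · rw [max_lt_iff, not_and_or, not_lt, not_lt] at hA
    rcases hA with hA | hA
    · have h1 : r₁ ^ κ ≤ r ^ κ := Real.rpow_le_rpow hr₁.le hA hκ0.le
      have h2 : (d : ℝ) ^ N ≤ 1 / r₁ ^ κ * X := by
        calc (d : ℝ) ^ N = 1 / r₁ ^ κ * ((d : ℝ) ^ N * r₁ ^ κ) := by field_simp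
          _ ≤ 1 / r₁ ^ κ * X := by
              gcongr
              rw [hX]
              gcongr
      refine hcard.trans (h2.trans ?_)
      calc 1 / r₁ ^ κ * X ≤ 1 / r₁ ^ κ * (F * (1 + X)) := by
            gcongr
            nlinarith
        _ = 1 / r₁ ^ κ * F * (1 + X) := by ring
        _ ≤ _ := by gcongr
    · have h1 : r₁ ^ (κ + η) ≤ ρ₀ ^ (κ + η) := Real.rpow_le_rpow hr₁.le hA (by positivity)
      rw [hρ₀p, le_div_iff₀ hdN] at h1
      have h2 : (d : ℝ) ^ N ≤ 4 / r₁ ^ (κ + η) := by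
        rw [le_div_iff₀ (by positivity)]
        linarith
      refine hcard.trans (h2.trans ?_)
      calc 4 / r₁ ^ (κ + η) = 4 / r₁ ^ (κ + η) * 1 := (mul_one _).symm
        _ ≤ 4 / r₁ ^ (κ + η) * (F * (1 + X)) := by gcongr
        _ = 4 / r₁ ^ (κ + η) * F * (1 + X) := by ring
        _ ≤ _ := by gcongr

/-- the superattracting parameters of exact period `n` in a disc -/
def Ex (d n : ℕ) (c₀ : ℂ) (r : ℝ) : Set ℂ :=
  {c | c ∈ ball c₀ r ∧ Function.minimalPeriod (fc d c) 0 = n}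

theorem Ex_sub (n : ℕ) (r : ℝ) : Ex d n c₀ r ⊆ Cen d n c₀ r := by
  rintro c ⟨h1, h2⟩
  refine ⟨h1, ?_⟩
  have := Function.iterate_minimalPeriod (f := fc d c) (x := (0 : ℂ))
  rw [h2] at this
  exact this

theorem Cen_sub (n : ℕ) (hn : 1 ≤ n) (r : ℝ) :
    Cen d n c₀ r ⊆ Ex d n c₀ r ∪ ⋃ m ∈ Finset.Icc 1 (n / 2), Cen d m c₀ r := by
  rintro c ⟨h1, h2⟩
  have h3 : Function.IsPeriodicPt (fc d c) n 0 := h2
  have h4 := h3.minimalPeriod_dvd
  have h5 := h3.minimalPeriod_pos (by omega)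
  by_cases h6 : Function.minimalPeriod (fc d c) 0 = n
  · exact Or.inl ⟨h1, h6⟩
  · right
    obtain ⟨k, hk⟩ := h4
    rw [mem_iUnion₂]
    refine ⟨Function.minimalPeriod (fc d c) 0, ?_, h1, ?_⟩
    · rw [Finset.mem_Icc]
      refine ⟨h5, ?_⟩
      have h7 : 2 ≤ k := by
        rcases k with _ | _ | k
        · omega
        · exact absurd (by simpa using hk.symm) h6
        · omega
      rw [Nat.le_div_iff_mul_le (by norm_num)]
      calc Function.minimalPeriod (fc d c) 0 * 2 ≤ Function.minimalPeriod (fc d c) 0 * k := by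
            gcongr
        _ = n := hk.symm
    · exact Function.iterate_minimalPeriod (f := fc d c) (x := (0 : ℂ))

end Pool.Agent.N896.MB
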