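import Pool.Agent.R240.LL4
import Pool.Agent.R240.Size
import Pool.Agent.N896.MB.Cnt

set_option autoImplicit false

/-! # The local law for the superattracting parameters of exact period `n` -/

namespace Pool.Agent.N896.MB

open Complex Metric Set Filter Topology MeasureTheory Pool.Agent.H712R2 Pool.Agent.H713R2
open N62a1eb23 Pool.Agent.R240 Pool.Agent.R240.LL
open Pool.Agent.Y736.HD (Ang vol_Ang_ne)

variable {d : ℕ} {ψ : ℂ → ℂ} {c₀ : ℂ}

/-- the harmonic measure of a disc -/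
noncomputable def oh (ψ : ℂ → ℂ) (c : ℂ) (r : ℝ) : ℝ := (volume (Ang ψ c r)).toReal / (2 * Real.pi)

theorem oh_nonneg (ψ : ℂ → ℂ) (c : ℂ) (r : ℝ) : 0 ≤ oh ψ c r := by
  have := Real.pi_pos
  unfold oh; positivity

theorem oh_le_one (ψ : ℂ → ℂ) (c : ℂ) (r : ℝ) : oh ψ c r ≤ 1 := vol_le_one ψ c r

theorem oh_mono (ψ : ℂ → ℂ) (c : ℂ) {r s : ℝ} (h : r ≤ s) : oh ψ c r ≤ oh ψ c s := by
  have := Real.pi_pos
  unfold oh
  have h1 : Ang ψ c r ⊆ Ang ψ c s := by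
    rintro θ ⟨h1, ζ, h2, h3⟩
    exact ⟨h1, ζ, ball_subset_ball h h2, h3⟩
  have h2 := ENNReal.toReal_mono (vol_Ang_ne ψ c s) (measure_mono (μ := volume) h1)
  gcongr

theorem nz_eq (hd : 2 ≤ d) (N : ℕ) (c : ℂ) (r : ℝ) : nz d N c r = (Cen d (N + 1) c r).ncard := by
  unfold nz
  rw [← ncard_coe_finset]
  congr 1
  ext a
  rw [Finset.mem_coe, Finset.mem_filter, mem_ZZ hd]
  constructor
  · rintro ⟨h1, h2⟩
    exact ⟨by rwa [mem_ball, dist_eq_norm], h1⟩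
  · rintro ⟨h1, h2⟩
    exact ⟨h2, by rwa [mem_ball, dist_eq_norm] at h1⟩

theorem ex_fin (hd : 2 ≤ d) {n : ℕ} (hn : 1 ≤ n) (c : ℂ) (r : ℝ) : (Ex d n c r).Finite :=
  (Cen_fin hd hn c r).subset (Ex_sub n r)

theorem ex_mono (hd : 2 ≤ d) {n : ℕ} (hn : 1 ≤ n) (c : ℂ) {r s : ℝ} (h : r ≤ s) :
    (Ex d n c r).ncard ≤ (Ex d n c s).ncard :=
  ncard_le_ncard (fun _ hx => ⟨ball_subset_ball h hx.1, hx.2⟩) (ex_fin hd hn c s)

/-- upper bound -/
theorem ex_up (hd : 2 ≤ d) (hψ : IsExteriorMap (multibrotSet d) ψ) (hc₀ : c₀ ∈ multibrotSet d)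
    {n : ℕ} (hn : 1 ≤ n) {r δ : ℝ} (hr : 0 < r) (hδ0 : 0 < δ) (hδ1 : δ ≤ 1) :
    ((Ex d n c₀ r).ncard : ℝ) ≤ (d : ℝ) ^ (n - 1) * oh ψ c₀ ((1 + δ) * r) +
      KL * n * Real.log d / δ := by
  obtain ⟨N, rfl⟩ : ∃ N, n = N + 1 := ⟨n - 1, by omega⟩
  have h1 := (law hd hψ hc₀ N hr hδ0 hδ1).1
  rw [nz_eq hd] at h1
  have h2 : ((Ex d (N + 1) c₀ r).ncard : ℝ) ≤ (Cen d (N + 1) c₀ r).ncard := by
    exact_mod_cast ncard_le_ncard (Ex_sub _ r) (Cen_fin hd hn c₀ r)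
  rw [Nat.add_sub_cancel]
  exact h2.trans h1

/-- counting exact periods -/
theorem cen_le (hd : 2 ≤ d) {n : ℕ} (hn : 1 ≤ n) (c : ℂ) (r : ℝ) :
    ((Cen d n c r).ncard : ℝ) ≤ (Ex d n c r).ncard +
      ∑ m ∈ Finset.Icc 1 (n / 2), ((Cen d m c r).ncard : ℝ) := by
  have e3 : (Cen d n c r).ncard ≤ (Ex d n c r).ncard +
      ∑ m ∈ Finset.Icc 1 (n / 2), (Cen d m c r).ncard := by
    have hfin : (⋃ m ∈ Finset.Icc 1 (n / 2), Cen d m c r).Finite := by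
      apply Set.Finite.biUnion (Finset.finite_toSet _)
      intro m hm
      exact Cen_fin hd (Finset.mem_Icc.1 hm).1 _ _
    refine (ncard_le_ncard (Cen_sub n hn r) ((ex_fin hd hn c r).union hfin)).trans ?_
    refine (ncard_union_le _ _).trans ?_
    gcongr
    exact Finset.set_ncard_biUnion_le _ _
  exact_mod_cast e3

theorem geom (hd : 2 ≤ d) (k : ℕ) : ∑ m ∈ Finset.Icc 1 k, (d : ℝ) ^ (m - 1) ≤ (d : ℝ) ^ k := by
  have hd1 : (2 : ℝ) ≤ d := by exact_mod_cast hd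
  induction k with
  | zero => simp
  | succ k ih =>
    rw [Finset.sum_Icc_succ_top (by omega), Nat.add_sub_cancel, pow_succ]
    have : (0 : ℝ) < (d : ℝ) ^ k := by positivity
    nlinarith

/-- pigeonhole for the growth of the harmonic measure -/
theorem pigeon {w : ℕ → ℝ} (h4 : w 4 ≤ 1) {X : ℝ} (hX : 1 ≤ X ^ 4 * w 0)
    (hX0 : 0 ≤ X) : ∃ k < 4, w (k + 1) ≤ X * w k := by
  by_contra hcon
  push Not at hcon
  have h1 := hcon 0 (by norm_num)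
  have h2 := hcon 1 (by norm_num)
  have h3 := hcon 2 (by norm_num)
  have h5 := hcon 3 (by norm_num)
  norm_num at h1 h2 h3 h5
  have e1 : X * (X * w 0) ≤ X * w 1 := by gcongr
  have e2 : X * (X * (X * w 0)) ≤ X * w 2 := by
    have : X * (X * w 0) ≤ w 2 := by linarith
    gcongr
  have e3 : X * (X * (X * (X * w 0))) ≤ X * w 3 := by
    have : X * (X * (X * w 0)) ≤ w 3 := by linarith
    gcongr
  have e4 : X ^ 4 * w 0 = X * (X * (X * (X * w 0))) := by ring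
  linarith

/-- **Lower bound for exact periods.** -/
theorem ex_low (hd : 2 ≤ d) (hψ : IsExteriorMap (multibrotSet d) ψ) (hc₀ : c₀ ∈ multibrotSet d)
    {n : ℕ} (hn : 1 ≤ n) {r δ : ℝ} (hr : 0 < r) (hδ0 : 0 < δ) (hδ1 : δ ≤ 1) :
    (1 - (d : ℝ) ^ (1 - (n : ℝ) / 4)) * ((d : ℝ) ^ (n - 1) * oh ψ c₀ r) ≤
      (Ex d n c₀ ((1 + δ) * r)).ncard + 32 * (KL + 1) * n ^ 2 * Real.log d / δ := by
  have hd1 : (2 : ℝ) ≤ d := by exact_mod_cast hd
  have hd0 : (0 : ℝ) < d := by linarith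
  have hn1 : (1 : ℝ) ≤ n := by exact_mod_cast hn
  have hK := KL_pos
  have hl2 : 1 / 2 < Real.log 2 := by have := Real.log_two_gt_d9; linarith
  have hl : 1 / 2 < Real.log d := hl2.trans_le (Real.log_le_log (by norm_num) hd1)
  have herr1 : 1 ≤ 32 * (KL + 1) * n ^ 2 * Real.log d / δ := by
    rw [le_div_iff₀ hδ0]
    have h1 : (1 : ℝ) ≤ n ^ 2 := one_le_pow₀ hn1
    have h2 : 1 ≤ 32 * (KL + 1) * (1 / 2) := by linarith
    calc 1 * δ ≤ 1 := by linarith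
      _ ≤ 32 * (KL + 1) * (1 / 2) := h2
      _ ≤ 32 * (KL + 1) * 1 * Real.log d := by rw [mul_one]; gcongr
      _ ≤ 32 * (KL + 1) * n ^ 2 * Real.log d := by gcongr
  have hex0 : (0 : ℝ) ≤ (Ex d n c₀ ((1 + δ) * r)).ncard := by positivity
  have hdn0 : (0 : ℝ) < (d : ℝ) ^ (n - 1) := by positivity
  obtain ⟨P, hP⟩ : ∃ P, P = (d : ℝ) ^ (1 - (n : ℝ) / 4) := ⟨_, rfl⟩
  have hP0 : 0 < P := by rw [hP]; positivity
  rw [← hP]
  obtain ⟨w₀, hw₀⟩ : ∃ w₀, w₀ = oh ψ c₀ r := ⟨_, rfl⟩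
  have hw0 : 0 ≤ w₀ := by rw [hw₀]; exact oh_nonneg _ _ _
  rw [← hw₀]
  -- the trivial cases
  rcases le_or_gt 1 P with hP1 | hP1
  · have : (1 - P) * ((d : ℝ) ^ (n - 1) * w₀) ≤ 0 :=
      mul_nonpos_of_nonpos_of_nonneg (by linarith) (by positivity)
    linarith
  rcases le_or_gt ((d : ℝ) ^ (n - 1) * w₀) 1 with hsm | hbig
  · have : (1 - P) * ((d : ℝ) ^ (n - 1) * w₀) ≤ 1 * 1 := by
      apply mul_le_mul (by linarith) hsm (by positivity) (by norm_num)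
    linarith
  have hw0' : 0 < w₀ := by
    by_contra hcon
    have : w₀ = 0 := le_antisymm (not_lt.1 hcon) hw0
    rw [this, mul_zero] at hbig
    linarith
  -- the radii
  obtain ⟨R, hR⟩ : ∃ R : ℕ → ℝ, R = fun j : ℕ => r * (1 + (j : ℝ) * (δ / 8)) := ⟨_, rfl⟩
  have hRpos : ∀ j, 0 < R j := by intro j; rw [hR]; positivity
  have hRstep : ∀ j : ℕ, j ≤ 7 → (1 + δ / 16) * R j ≤ R (j + 1) := by
    intro j hj
    rw [hR]
    simp only
    push_cast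
    have hj7 : (j : ℝ) ≤ 7 := by exact_mod_cast hj
    have h1 : (1 + δ / 16) * (1 + j * (δ / 8)) ≤ 1 + (j + 1) * (δ / 8) := by
      have : (j : ℝ) * (δ / 8) ≤ 1 := by nlinarith
      nlinarith
    calc (1 + δ / 16) * (r * (1 + j * (δ / 8))) = r * ((1 + δ / 16) * (1 + j * (δ / 8))) := by ring
      _ ≤ r * (1 + (j + 1) * (δ / 8)) := by gcongr
  have hRend : ∀ j : ℕ, j ≤ 8 → R j ≤ (1 + δ) * r := by
    intro j hj
    rw [hR]
    simp only
    have hj8 : (j : ℝ) ≤ 8 := by exact_mod_cast hj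
    have : (j : ℝ) * (δ / 8) ≤ δ := by nlinarith
    nlinarith
  -- the growth
  obtain ⟨X, hX⟩ : ∃ X, X = (d : ℝ) ^ ((n : ℝ) / 4) := ⟨_, rfl⟩
  have hX0 : 0 < X := by rw [hX]; positivity
  have hX4 : X ^ 4 = (d : ℝ) ^ n := by
    rw [hX, ← Real.rpow_natCast, ← Real.rpow_mul hd0.le, ← Real.rpow_natCast]
    congr 1
    push_cast
    ring
  have hdn : (d : ℝ) ^ (n - 1) ≤ (d : ℝ) ^ n := pow_le_pow_right₀ (by linarith) (Nat.sub_le _ _)
  obtain ⟨k, hk, hgr⟩ := pigeon (w := fun k => oh ψ c₀ (R (2 * k))) (X := X)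
    (oh_le_one _ _ _) (by
      change 1 ≤ X ^ 4 * oh ψ c₀ (R (2 * 0))
      have : R (2 * 0) = r := by rw [hR]; simp
      rw [this, ← hw₀, hX4]
      nlinarith) hX0.le
  change oh ψ c₀ (R (2 * (k + 1))) ≤ X * oh ψ c₀ (R (2 * k)) at hgr
  obtain ⟨w, hw⟩ : ∃ w, w = oh ψ c₀ (R (2 * k)) := ⟨_, rfl⟩
  rw [← hw] at hgr
  have hww : w₀ ≤ w := by
    rw [hw, hw₀]
    apply oh_mono
    rw [hR]
    simp only
    have : 0 ≤ ((2 * k : ℕ) : ℝ) * (δ / 8) := by positivity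
    nlinarith
  have hw1 : 0 < w := hw0'.trans_le hww
  obtain ⟨s, hs⟩ : ∃ s, s = R (2 * k + 1) := ⟨_, rfl⟩
  have hs0 : 0 < s := by rw [hs]; exact hRpos _
  have hδ16 : 0 < δ / 16 := by positivity
  obtain ⟨N, rfl⟩ : ∃ N, n = N + 1 := ⟨n - 1, by omega⟩
  rw [Nat.add_sub_cancel] at *
  obtain ⟨x, hx⟩ : ∃ x : ℝ, x = ((N + 1 : ℕ) : ℝ) := ⟨_, rfl⟩
  rw [← hx] at hn1 herr1 ⊢
  -- all centres in the disc of radius `s`
  have h1 : (d : ℝ) ^ N * w ≤ (Cen d (N + 1) c₀ s).ncard + 16 * KL * x * Real.log d / δ := by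
    have h2 := (law hd hψ hc₀ N (hRpos (2 * k)) hδ16 (by linarith)).2
    rw [nz_eq hd] at h2
    have h3 : ((Cen d (N + 1) c₀ ((1 + δ / 16) * R (2 * k))).ncard : ℝ) ≤
        (Cen d (N + 1) c₀ s).ncard := by
      rw [hs]
      exact_mod_cast card_mono hd hn (hRstep (2 * k) (by omega))
    have h4 : KL * ((N + 1 : ℕ) : ℝ) * Real.log d / (δ / 16) = 16 * KL * x * Real.log d / δ := by
      rw [hx]; field_simp
    rw [h4] at h2
    rw [hw]
    unfold oh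
    linarith
  -- the centres of lower periods
  have h2 : ∀ m ∈ Finset.Icc 1 ((N + 1) / 2), ((Cen d m c₀ s).ncard : ℝ) ≤
      (d : ℝ) ^ (m - 1) * (X * w) + 16 * KL * x * Real.log d / δ := by
    intro m hm
    rw [Finset.mem_Icc] at hm
    obtain ⟨M, rfl⟩ : ∃ M, m = M + 1 := ⟨m - 1, by omega⟩
    have h3 := (law hd hψ hc₀ M hs0 hδ16 (by linarith)).1
    rw [nz_eq hd] at h3
    have h4 : oh ψ c₀ ((1 + δ / 16) * s) ≤ X * w := by
      refine le_trans (oh_mono _ _ ?_) hgr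
      rw [hs, show 2 * (k + 1) = 2 * k + 1 + 1 by ring]
      exact hRstep (2 * k + 1) (by omega)
    have h5 : KL * ((M + 1 : ℕ) : ℝ) * Real.log d / (δ / 16) ≤ 16 * KL * x * Real.log d / δ := by
      have h6 : ((M + 1 : ℕ) : ℝ) ≤ x := by
        rw [hx]
        exact_mod_cast (by omega : M + 1 ≤ N + 1)
      calc KL * ((M + 1 : ℕ) : ℝ) * Real.log d / (δ / 16) ≤ KL * x * Real.log d / (δ / 16) := by
            gcongr
        _ = _ := by field_simp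
    have h6 : (d : ℝ) ^ M * ((volume (Ang ψ c₀ ((1 + δ / 16) * s))).toReal / (2 * Real.pi)) ≤
        (d : ℝ) ^ M * (X * w) := by
      apply mul_le_mul_of_nonneg_left _ (by positivity)
      exact h4
    rw [Nat.add_sub_cancel]
    linarith
  have h3 : ∑ m ∈ Finset.Icc 1 ((N + 1) / 2), ((Cen d m c₀ s).ncard : ℝ) ≤
      (d : ℝ) ^ ((N + 1) / 2) * (X * w) + x * (16 * KL * x * Real.log d / δ) / 2 := by
    refine (Finset.sum_le_sum h2).trans ?_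
    rw [Finset.sum_add_distrib, ← Finset.sum_mul, Finset.sum_const, nsmul_eq_mul]
    have h4 : ((Finset.Icc 1 ((N + 1) / 2)).card : ℝ) ≤ x / 2 := by
      rw [Nat.card_Icc, hx, le_div_iff₀ (by norm_num)]
      exact_mod_cast (by omega : ((N + 1) / 2 + 1 - 1) * 2 ≤ N + 1)
    have h5 := geom hd ((N + 1) / 2)
    have h6 : 0 ≤ 16 * KL * x * Real.log d / δ := by positivity
    calc (∑ m ∈ Finset.Icc 1 ((N + 1) / 2), (d : ℝ) ^ (m - 1)) * (X * w) +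
          ((Finset.Icc 1 ((N + 1) / 2)).card : ℝ) * (16 * KL * x * Real.log d / δ)
        ≤ (d : ℝ) ^ ((N + 1) / 2) * (X * w) + x / 2 * (16 * KL * x * Real.log d / δ) := by gcongr
      _ = _ := by ring
  have h4 := cen_le hd hn c₀ s
  have h5 : ((Ex d (N + 1) c₀ s).ncard : ℝ) ≤ (Ex d (N + 1) c₀ ((1 + δ) * r)).ncard := by
    rw [hs]
    exact_mod_cast ex_mono hd hn c₀ (hRend _ (by omega))
  -- the main terms
  have h6 : (d : ℝ) ^ ((N + 1) / 2) * X ≤ P * (d : ℝ) ^ N := by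
    rw [hX, hP, ← Real.rpow_natCast, ← Real.rpow_natCast, ← Real.rpow_add hd0, ← Real.rpow_add hd0]
    apply Real.rpow_le_rpow_of_exponent_le (by linarith)
    have h7 : (((N + 1) / 2 : ℕ) : ℝ) ≤ ((N + 1 : ℕ) : ℝ) / 2 := by
      rw [le_div_iff₀ (by norm_num)]
      exact_mod_cast (by omega : (N + 1) / 2 * 2 ≤ N + 1)
    push_cast at h7 ⊢
    linarith
  have h7 : (1 - P) * ((d : ℝ) ^ N * w) ≤ (Ex d (N + 1) c₀ ((1 + δ) * r)).ncard +
      (16 * KL * x * Real.log d / δ + x * (16 * KL * x * Real.log d / δ) / 2) := by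
    have h8 : (d : ℝ) ^ ((N + 1) / 2) * (X * w) ≤ P * (d : ℝ) ^ N * w := by
      calc (d : ℝ) ^ ((N + 1) / 2) * (X * w) = (d : ℝ) ^ ((N + 1) / 2) * X * w := by ring
        _ ≤ _ := by gcongr
    have h9 : (1 - P) * ((d : ℝ) ^ N * w) = (d : ℝ) ^ N * w - P * (d : ℝ) ^ N * w := by ring
    rw [h9]
    linarith
  have h8 : 16 * KL * x * Real.log d / δ + x * (16 * KL * x * Real.log d / δ) / 2 ≤
      32 * (KL + 1) * x ^ 2 * Real.log d / δ := by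
    have h9 : x * (16 * KL * x * Real.log d / δ) / 2 = 8 * KL * x ^ 2 * Real.log d / δ := by ring
    have h10 : 16 * KL * x * Real.log d / δ ≤ 16 * KL * x ^ 2 * Real.log d / δ := by
      have : x ≤ x ^ 2 := by nlinarith
      gcongr
    have h11 : 32 * (KL + 1) * x ^ 2 * Real.log d / δ = 16 * KL * x ^ 2 * Real.log d / δ +
        8 * KL * x ^ 2 * Real.log d / δ + (8 * KL + 32) * x ^ 2 * Real.log d / δ := by ring
    have h12 : 0 ≤ (8 * KL + 32) * x ^ 2 * Real.log d / δ := by positivity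
    rw [h9, h11]
    linarith
  have h9 : (1 - P) * ((d : ℝ) ^ N * w₀) ≤ (1 - P) * ((d : ℝ) ^ N * w) := by
    have : 0 ≤ 1 - P := by linarith
    gcongr
  linarith

end Pool.Agent.N896.MB
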